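import Mathlib

/-!
# Critical points at infinity whose direction is not parallel to the face

For `Q = (1 - x_1)^2 + x_2 + ⋯ + x_d`, `d ≥ 3`, the points `(1, - (d - 2) t, t, …, t)` are smooth
points of `V_Q`, critical in the constant direction `[0 : -(d - 2) : 1 : ⋯ : 1]`, and for `t → 0`
they converge, in the toric variety of the Newton polytope of `Q`, to a point of the orbit of the
edge `[0, 2 e_1]`.
-/

namespace Pool.Agent.Results.MP_759130_ag.LimitNotParallel

open Filter Topology
open scoped LinearAlgebra.Projectivization Pointwise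

/-- A Laurent polynomial in `z_1, …, z_d`, given by its (finitely supported) coefficient
function. -/
abbrev Laurent (d : ℕ) : Type := (Fin d → ℤ) →₀ ℂ

variable {d : ℕ}

/-- The monomial `z ^ m`. -/
noncomputable def mono (z : Fin d → ℂ) (m : Fin d → ℤ) : ℂ := ∏ i, z i ^ m i

/-- The value `Q(z)`. -/
noncomputable def value (Q : Laurent d) (z : Fin d → ℂ) : ℂ := Q.sum fun m c => c * mono z m

/-- The logarithmic gradient `(z_1 ∂Q/∂z_1, …, z_d ∂Q/∂z_d)`; `z_i ∂/∂z_i` multiplies `z ^ m` by
`m_i`. -/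
noncomputable def logGrad (Q : Laurent d) (z : Fin d → ℂ) : Fin d → ℂ :=
  fun i => Q.sum fun m c => c * ((m i : ℂ) * mono z m)

/-- The real vector with the coordinates of `m`. -/
def toReal (m : Fin d → ℤ) : Fin d → ℝ := fun i => (m i : ℝ)

/-- The Newton polytope. -/
def newton (Q : Laurent d) : Set (Fin d → ℝ) := convexHull ℝ (toReal '' {m | Q m ≠ 0})

/-- `z` is a point of the torus `(ℂ^*)^d` on `V_Q` at which `V_Q` is smooth (the gradient of `Q` is
not zero), and it is critical in the direction `r ∈ ℂℙ^{d-1}`. -/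
def IsSmoothCritical (Q : Laurent d) (z : Fin d → ℂ) (r : ℙ ℂ (Fin d → ℂ)) : Prop :=
  (∀ i, z i ≠ 0) ∧ value Q z = 0 ∧
    ∃ h : logGrad Q z ≠ 0, Projectivization.mk ℂ (logGrad Q z) h = r

/-- The points `z_j` of the torus converge, in the projective toric variety of the polytope `P`, to
a point of the orbit `O_Γ` of the face `Γ`: for every `k ≥ 1` the points `[z_j ^ m]`, `m` running
over the lattice points of `k P`, converge in projective space to a point whose nonzero coordinates
are exactly those with `m ∈ k Γ`. (For `k` large `k P` is very ample, the toric variety is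
the closure of the image of the torus under `z ↦ [z ^ m]`, and `O_Γ` consists of the
points of it whose nonzero coordinates are exactly those with `m ∈ k Γ`.) -/
def ConvergesToOrbit (P Γ : Set (Fin d → ℝ)) (z : ℕ → Fin d → ℂ) : Prop :=
  ∀ k : ℕ, 1 ≤ k → ∃ (scale : ℕ → ℂ) (c : (Fin d → ℤ) → ℂ), (∀ j, scale j ≠ 0) ∧
    (∃ m, toReal m ∈ (k : ℝ) • P ∧ c m ≠ 0) ∧
    ∀ m, toReal m ∈ (k : ℝ) • P →
      Tendsto (fun j => scale j * mono (z j) m) atTop (𝓝 (c m)) ∧
      (c m ≠ 0 ↔ toReal m ∈ (k : ℝ) • Γ)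

/-- `r` is parallel to `Γ`: its representatives lie in the complex span of the differences of
points of `Γ`. -/
def Parallel (r : ℙ ℂ (Fin d → ℂ)) (Γ : Set (Fin d → ℝ)) : Prop :=
  r.submodule ≤ Submodule.span ℂ {v | ∃ a ∈ Γ, ∃ b ∈ Γ, v = fun i => ((a i - b i : ℝ) : ℂ)}

section Example

variable (n : ℕ)

/-- `Q = 1 - 2 x_1 + x_1^2 + x_2 + ⋯ + x_{n+3}`. -/
noncomputable def poly : Laurent (n + 3) :=
  Finsupp.single 0 1 + Finsupp.single (Pi.single 0 1) (-2) + Finsupp.single (Pi.single 0 2) 1 +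
    ∑ i : Fin (n + 2), Finsupp.single (Pi.single i.succ 1) 1

lemma value_add (Q R : Laurent d) (z : Fin d → ℂ) : value (Q + R) z = value Q z + value R z := by
  rw [value, value, value]
  exact Finsupp.sum_add_index' (by simp) (fun _ _ _ => by ring)

lemma value_single (m : Fin d → ℤ) (c : ℂ) (z : Fin d → ℂ) :
    value (Finsupp.single m c) z = c * mono z m := by
  rw [value, Finsupp.sum_single_index (by simp)]

lemma value_sum {ι : Type*} (s : Finset ι) (f : ι → Laurent d) (z : Fin d → ℂ) :
    value (∑ i ∈ s, f i) z = ∑ i ∈ s, value (f i) z := by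
  classical
  induction s using Finset.induction_on with
  | empty => simp [value]
  | insert a s ha ih => rw [Finset.sum_insert ha, Finset.sum_insert ha, value_add, ih]

lemma logGrad_add (Q R : Laurent d) (z : Fin d → ℂ) :
    logGrad (Q + R) z = logGrad Q z + logGrad R z := by
  funext i
  rw [Pi.add_apply, logGrad, logGrad, logGrad]
  exact Finsupp.sum_add_index' (by simp) (fun _ _ _ => by ring)

lemma logGrad_single (m : Fin d → ℤ) (c : ℂ) (z : Fin d → ℂ) (i : Fin d) :
    logGrad (Finsupp.single m c) z i = c * ((m i : ℂ) * mono z m) := by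
  rw [logGrad, Finsupp.sum_single_index (by simp)]

lemma logGrad_sum {ι : Type*} (s : Finset ι) (f : ι → Laurent d) (z : Fin d → ℂ) :
    logGrad (∑ i ∈ s, f i) z = ∑ i ∈ s, logGrad (f i) z := by
  classical
  induction s using Finset.induction_on with
  | empty =>
    funext i
    simp [logGrad]
  | insert a s ha ih => rw [Finset.sum_insert ha, Finset.sum_insert ha, logGrad_add, ih]

lemma mono_single (z : Fin d → ℂ) (i : Fin d) (e : ℤ) : mono z (Pi.single i e) = z i ^ e := by
  classical
  rw [mono, Finset.prod_eq_single i]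
  · rw [Pi.single_eq_same]
  · intro j _ hj
    rw [Pi.single_eq_of_ne hj, zpow_zero]
  · intro h
    exact absurd (Finset.mem_univ i) h

lemma mono_zero (z : Fin d → ℂ) : mono z 0 = 1 := by
  rw [mono]
  exact Finset.prod_eq_one fun i _ => by rw [Pi.zero_apply, zpow_zero]

/-- The points `(1, -(n+1) t, t, …, t)`. -/
noncomputable def pt (t : ℂ) : Fin (n + 3) → ℂ := Fin.cons 1 (Fin.cons (-((n : ℂ) + 1) * t) fun _ => t)

lemma value_poly (t : ℂ) : value (poly n) (pt n t) = 0 := by
  rw [poly, value_add, value_add, value_add, value_single, value_single, value_single, value_sum]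
  have h1 : ∀ i : Fin (n + 2), value (Finsupp.single (Pi.single i.succ 1) 1) (pt n t) =
      pt n t i.succ := by
    intro i
    rw [value_single, mono_single, one_mul, zpow_one]
  rw [Finset.sum_congr rfl fun i _ => h1 i, mono_zero, mono_single, mono_single, Fin.sum_univ_succ]
  simp [pt]
  ring

lemma logGrad_poly (t : ℂ) : logGrad (poly n) (pt n t) =
    Fin.cons 0 (Fin.cons (-((n : ℂ) + 1) * t) fun _ => t) := by
  funext i
  rw [poly, logGrad_add, logGrad_add, logGrad_add, Pi.add_apply, Pi.add_apply, Pi.add_apply,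
    logGrad_single, logGrad_single, logGrad_single, logGrad_sum, Finset.sum_apply]
  have h1 : ∀ j : Fin (n + 2), logGrad (Finsupp.single (Pi.single j.succ 1) 1) (pt n t) i =
      ((Pi.single j.succ 1 : Fin (n + 3) → ℤ) i : ℂ) * pt n t j.succ := by
    intro j
    rw [logGrad_single, mono_single, one_mul, zpow_one]
  rw [Finset.sum_congr rfl fun j _ => h1 j, mono_zero, mono_single, mono_single]
  refine Fin.cases ?_ (fun i => ?_) i
  · have h2 : ∀ j : Fin (n + 2), ((Pi.single j.succ 1 : Fin (n + 3) → ℤ) 0 : ℂ) * pt n t j.succ = 0 := by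
      intro j
      rw [Pi.single_eq_of_ne (Fin.succ_ne_zero j).symm]
      simp
    rw [Finset.sum_eq_zero fun j _ => h2 j]
    simp [pt]
  · rw [Finset.sum_eq_single i]
    · simp [pt]
    · intro j _ hj
      rw [Pi.single_eq_of_ne (fun h => hj (Fin.succ_injective _ h).symm)]
      simp
    · intro h
      exact absurd (Finset.mem_univ i) h

lemma poly_apply (m : Fin (n + 3) → ℤ) : poly n m =
    (if 0 = m then 1 else 0) + (if Pi.single 0 1 = m then -2 else 0) +
    (if Pi.single 0 2 = m then 1 else 0) +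
    ∑ i : Fin (n + 2), (if Pi.single i.succ 1 = m then 1 else 0) := by
  classical
  rw [poly, Finsupp.add_apply, Finsupp.add_apply, Finsupp.add_apply, Finsupp.single_apply,
    Finsupp.single_apply, Finsupp.single_apply, Finsupp.finsetSum_apply]
  congr 1
  refine Finset.sum_congr rfl fun i _ => ?_
  rw [Finsupp.single_apply]

lemma nonneg_of_mem_support {m : Fin (n + 3) → ℤ} (h : poly n m ≠ 0) (i : Fin (n + 3)) :
    0 ≤ m i := by
  classical
  by_contra hi
  apply h
  have key : ∀ (j : Fin (n + 3)) (e : ℤ), 0 ≤ e → (Pi.single j e : Fin (n + 3) → ℤ) ≠ m := by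
    rintro j e he rfl
    apply hi
    by_cases hij : i = j
    · subst hij
      rwa [Pi.single_eq_same]
    · rw [Pi.single_eq_of_ne hij]
  rw [poly_apply, if_neg, if_neg (key _ _ (by norm_num)), if_neg (key _ _ (by norm_num)),
    Finset.sum_eq_zero]
  · ring
  · intro j _
    rw [if_neg (key _ _ (by norm_num))]
  · rintro rfl
    exact hi le_rfl

lemma single_ne (i j : Fin (n + 3)) (e f : ℤ) (h : i ≠ j) (he : e ≠ 0) :
    (Pi.single i e : Fin (n + 3) → ℤ) ≠ Pi.single j f := by
  intro h1
  have h2 := congrFun h1 i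
  rw [Pi.single_eq_same, Pi.single_eq_of_ne h] at h2
  exact he h2

lemma single_ne' (i : Fin (n + 3)) (e f : ℤ) (h : e ≠ f) :
    (Pi.single i e : Fin (n + 3) → ℤ) ≠ Pi.single i f := by
  intro h1
  have h2 := congrFun h1 i
  rw [Pi.single_eq_same, Pi.single_eq_same] at h2
  exact h h2

lemma zero_ne_single (i : Fin (n + 3)) (e : ℤ) (h : e ≠ 0) :
    (0 : Fin (n + 3) → ℤ) ≠ Pi.single i e := by
  intro h1
  have h2 := congrFun h1 i
  rw [Pi.single_eq_same] at h2
  exact h h2.symm

lemma poly_zero : poly n 0 ≠ 0 := by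
  classical
  rw [poly_apply, if_pos rfl, if_neg (zero_ne_single n _ _ (by norm_num)).symm,
    if_neg (zero_ne_single n _ _ (by norm_num)).symm, Finset.sum_eq_zero]
  · norm_num
  · intro j _
    rw [if_neg (zero_ne_single n _ _ (by norm_num)).symm]

lemma poly_single_zero : poly n (Pi.single 0 1) ≠ 0 := by
  classical
  rw [poly_apply, if_neg (zero_ne_single n _ _ (by norm_num)), if_pos rfl,
    if_neg (single_ne' n _ _ _ (by norm_num)), Finset.sum_eq_zero]
  · norm_num
  · intro j _
    rw [if_neg (single_ne n _ _ _ _ (Fin.succ_ne_zero j) (by norm_num))]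

lemma poly_single_succ (i : Fin (n + 2)) : poly n (Pi.single i.succ 1) ≠ 0 := by
  classical
  rw [poly_apply, if_neg (zero_ne_single n _ _ (by norm_num)),
    if_neg (single_ne n _ _ _ _ (Fin.succ_ne_zero i).symm (by norm_num)),
    if_neg (single_ne n _ _ _ _ (Fin.succ_ne_zero i).symm (by norm_num)),
    Finset.sum_eq_single i]
  · rw [if_pos rfl]
    norm_num
  · intro j _ hj
    rw [if_neg (single_ne n _ _ _ _ (fun h => hj (Fin.succ_injective _ h)) (by norm_num))]
  · intro h
    exact absurd (Finset.mem_univ i) h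

lemma toReal_zero : toReal (0 : Fin d → ℤ) = 0 := by
  funext i
  simp [toReal]

lemma zero_mem_newton : (0 : Fin (n + 3) → ℝ) ∈ newton (poly n) := by
  apply subset_convexHull
  exact ⟨0, poly_zero n, toReal_zero⟩

lemma single_mem_newton (i : Fin (n + 3)) : (Pi.single i 1 : Fin (n + 3) → ℝ) ∈ newton (poly n) := by
  apply subset_convexHull
  refine ⟨Pi.single i 1, ?_, ?_⟩
  · refine Fin.cases ?_ (fun i => ?_) i
    · exact poly_single_zero n
    · exact poly_single_succ n i
  · funext j
    rw [toReal]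
    by_cases h : j = i
    · subst h
      rw [Pi.single_eq_same, Pi.single_eq_same]
      simp
    · rw [Pi.single_eq_of_ne h, Pi.single_eq_of_ne h]
      simp

lemma newton_nonneg {x : Fin (n + 3) → ℝ} (hx : x ∈ newton (poly n)) (i : Fin (n + 3)) :
    0 ≤ x i := by
  have h1 : newton (poly n) ⊆ {x | 0 ≤ x i} := by
    apply convexHull_min
    · rintro _ ⟨m, hm, rfl⟩
      have := nonneg_of_mem_support n hm i
      show (0 : ℝ) ≤ (m i : ℝ)
      exact_mod_cast this
    · intro x hx y hy a b ha hb _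
      show 0 ≤ (a • x + b • y) i
      have hx' : 0 ≤ x i := hx
      have hy' : 0 ≤ y i := hy
      simp only [Pi.add_apply, Pi.smul_apply, smul_eq_mul]
      positivity
  exact h1 hx

lemma vectorSpan_newton : vectorSpan ℝ (newton (poly n)) = ⊤ := by
  rw [eq_top_iff, ← (Pi.basisFun ℝ (Fin (n + 3))).span_eq, Submodule.span_le]
  rintro _ ⟨i, rfl⟩
  rw [Pi.basisFun_apply]
  have := vsub_mem_vectorSpan ℝ (single_mem_newton n i) (zero_mem_newton n)
  simpa using this

/-- The edge `[0, 2 e_1]` of the Newton polytope. -/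
def edge : Set (Fin (n + 3) → ℝ) := {x | x ∈ newton (poly n) ∧ ∀ i : Fin (n + 2), x i.succ = 0}

lemma isExposed_edge : IsExposed ℝ (newton (poly n)) (edge n) := by
  intro _
  refine ⟨-∑ i : Fin (n + 2), ContinuousLinearMap.proj i.succ, ?_⟩
  ext x
  have hval : ∀ y : Fin (n + 3) → ℝ,
      (-∑ i : Fin (n + 2), ContinuousLinearMap.proj i.succ : (Fin (n + 3) → ℝ) →L[ℝ] ℝ) y =
      -∑ i : Fin (n + 2), y i.succ := by
    intro y
    simp
  constructor
  · rintro ⟨h1, h2⟩
    refine ⟨h1, fun y hy => ?_⟩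
    rw [hval, hval, Finset.sum_eq_zero fun i _ => h2 i, neg_zero, neg_nonpos]
    exact Finset.sum_nonneg fun i _ => newton_nonneg n hy _
  · rintro ⟨h1, h2⟩
    refine ⟨h1, ?_⟩
    have h3 := h2 0 (zero_mem_newton n)
    rw [hval, hval] at h3
    simp only [Pi.zero_apply, Finset.sum_const_zero, neg_zero, Left.nonneg_neg_iff] at h3
    have h4 : ∑ i : Fin (n + 2), x i.succ = 0 :=
      le_antisymm h3 (Finset.sum_nonneg fun i _ => newton_nonneg n h1 _)
    rw [Finset.sum_eq_zero_iff_of_nonneg fun i _ => newton_nonneg n h1 _] at h4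
    exact fun i => h4 i (Finset.mem_univ i)

lemma zero_mem_edge : (0 : Fin (n + 3) → ℝ) ∈ edge n := ⟨zero_mem_newton n, fun _ => rfl⟩

/-- The direction `[0 : -(n+1) : 1 : ⋯ : 1]`. -/
noncomputable def dirVec : Fin (n + 3) → ℂ := Fin.cons 0 (Fin.cons (-((n : ℂ) + 1)) fun _ => 1)

lemma dirVec_one : dirVec n (Fin.succ 0) = -((n : ℂ) + 1) := rfl

lemma dirVec_one_ne : dirVec n (Fin.succ 0) ≠ 0 := by
  rw [dirVec_one, neg_ne_zero]
  exact_mod_cast Nat.succ_ne_zero n

lemma dirVec_ne_zero : dirVec n ≠ 0 := by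
  intro h
  exact dirVec_one_ne n (congrFun h _)

lemma logGrad_eq_smul (t : ℂ) : logGrad (poly n) (pt n t) = t • dirVec n := by
  rw [logGrad_poly]
  funext i
  refine Fin.cases ?_ (fun i => Fin.cases ?_ (fun i => ?_) i) i
  · simp [dirVec]
  · simp [dirVec]
    ring
  · simp [dirVec]

/-- The parameters `t_j = 1 / (j + 1)`. -/
noncomputable def tj (j : ℕ) : ℂ := 1 / ((j : ℂ) + 1)

lemma tj_ne (j : ℕ) : tj j ≠ 0 := by
  rw [tj]
  exact one_div_ne_zero (by exact_mod_cast Nat.succ_ne_zero j)

lemma isSmoothCritical (j : ℕ) : IsSmoothCritical (poly n) (pt n (tj j))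
    (Projectivization.mk ℂ (dirVec n) (dirVec_ne_zero n)) := by
  have h0 : logGrad (poly n) (pt n (tj j)) ≠ 0 := by
    rw [logGrad_eq_smul]
    exact smul_ne_zero (tj_ne j) (dirVec_ne_zero n)
  refine ⟨fun i => ?_, value_poly n _, h0, ?_⟩
  · refine Fin.cases ?_ (fun i => Fin.cases ?_ (fun i => ?_) i) i
    · simp [pt]
    · have h1 : -((n : ℂ) + 1) ≠ 0 := dirVec_one_ne n
      simpa [pt] using mul_ne_zero h1 (tj_ne j)
    · simpa [pt] using tj_ne j
  · rw [Projectivization.mk_eq_mk_iff']
    exact ⟨tj j, (logGrad_eq_smul n _).symm⟩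

lemma tendsto_tj : Tendsto tj atTop (𝓝 0) := tendsto_one_div_add_atTop_nhds_zero_nat

lemma tendsto_pt_succ (i : Fin (n + 2)) :
    Tendsto (fun j => pt n (tj j) i.succ) atTop (𝓝 0) := by
  refine Fin.cases ?_ (fun i => ?_) i
  · have h := tendsto_tj.const_mul (-((n : ℂ) + 1))
    rw [mul_zero] at h
    simpa [pt] using h
  · simpa [pt] using tendsto_tj

lemma tendsto_mono {m : Fin (n + 3) → ℤ} (hm : ∀ i, 0 ≤ m i) :
    Tendsto (fun j => mono (pt n (tj j)) m) atTop
      (𝓝 (if ∀ i : Fin (n + 2), m i.succ = 0 then 1 else 0)) := by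
  classical
  have h1 : ∀ j, mono (pt n (tj j)) m = ∏ i : Fin (n + 2), pt n (tj j) i.succ ^ m i.succ := by
    intro j
    rw [mono, Fin.prod_univ_succ]
    simp [pt]
  simp only [h1]
  have h2 : ∀ i : Fin (n + 2), Tendsto (fun j => pt n (tj j) i.succ ^ m i.succ) atTop
      (𝓝 (if m i.succ = 0 then 1 else 0)) := by
    intro i
    split_ifs with h
    · simp only [h, zpow_zero]
      exact tendsto_const_nhds
    · obtain ⟨e, he⟩ : ∃ e : ℕ, m i.succ = e + 1 := by
        have := hm i.succ
        exact ⟨(m i.succ - 1).toNat, by omega⟩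
      have h3 := (tendsto_pt_succ n i).pow (e + 1)
      rw [zero_pow (Nat.succ_ne_zero e)] at h3
      refine h3.congr fun j => ?_
      rw [he]
      exact_mod_cast rfl
  have h3 := tendsto_finsetProd Finset.univ fun i _ => h2 i
  convert h3 using 2
  split_ifs with h
  · rw [Finset.prod_eq_one]
    intro i _
    rw [if_pos (h i)]
  · push Not at h
    obtain ⟨i, hi⟩ := h
    rw [Finset.prod_eq_zero (Finset.mem_univ i)]
    rw [if_neg hi]

lemma convergesToOrbit : ConvergesToOrbit (newton (poly n)) (edge n) fun j => pt n (tj j) := by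
  classical
  intro k hk
  have hk0 : (k : ℝ) ≠ 0 := by
    have : k ≠ 0 := by omega
    exact_mod_cast this
  refine ⟨fun _ => 1, fun m => if ∀ i : Fin (n + 2), m i.succ = 0 then 1 else 0,
    fun _ => one_ne_zero, ⟨0, ?_, ?_⟩, ?_⟩
  · rw [toReal_zero]
    exact ⟨0, zero_mem_newton n, smul_zero _⟩
  · simp
  · rintro m ⟨x, hx, hxm⟩
    have hm : ∀ i, (k : ℝ) * x i = (m i : ℝ) := fun i => congrFun hxm i
    have hm0 : ∀ i, 0 ≤ m i := by
      intro i
      have h1 : (0 : ℝ) ≤ (m i : ℝ) := by
        rw [← hm i]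
        exact mul_nonneg (Nat.cast_nonneg k) (newton_nonneg n hx i)
      exact_mod_cast h1
    refine ⟨?_, ?_⟩
    · simp only [one_mul]
      exact tendsto_mono n hm0
    · constructor
      · intro h
        have h1 : ∀ i : Fin (n + 2), m i.succ = 0 := by
          by_contra h2
          exact h (if_neg h2)
        refine ⟨x, ⟨hx, fun i => ?_⟩, hxm⟩
        have h2 := hm i.succ
        rw [h1 i, Int.cast_zero, mul_eq_zero] at h2
        exact h2.resolve_left hk0
      · rintro ⟨y, ⟨-, hy⟩, hym⟩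
        have h1 : ∀ i : Fin (n + 2), m i.succ = 0 := by
          intro i
          have h2 : (k : ℝ) * y i.succ = (m i.succ : ℝ) := congrFun hym i.succ
          rw [hy i, mul_zero] at h2
          exact_mod_cast h2.symm
        show (if ∀ i : Fin (n + 2), m i.succ = 0 then (1 : ℂ) else 0) ≠ 0
        rw [if_pos h1]
        exact one_ne_zero

lemma not_parallel :
    ¬ Parallel (Projectivization.mk ℂ (dirVec n) (dirVec_ne_zero n)) (edge n) := by
  intro h
  rw [Parallel, Projectivization.submodule_mk] at h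
  have h1 : dirVec n ∈ Submodule.span ℂ
      {v | ∃ a ∈ edge n, ∃ b ∈ edge n, v = fun i => ((a i - b i : ℝ) : ℂ)} :=
    h (Submodule.mem_span_singleton_self _)
  have h2 : Submodule.span ℂ
      {v | ∃ a ∈ edge n, ∃ b ∈ edge n, v = fun i => ((a i - b i : ℝ) : ℂ)} ≤
      LinearMap.ker (LinearMap.proj (Fin.succ 0) : (Fin (n + 3) → ℂ) →ₗ[ℂ] ℂ) := by
    rw [Submodule.span_le]
    rintro _ ⟨a, ha, b, hb, rfl⟩
    show ((a (Fin.succ 0) - b (Fin.succ 0) : ℝ) : ℂ) = 0
    rw [ha.2 0, hb.2 0]
    simp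
  exact dirVec_one_ne n (h2 h1)

end Example

/-- For every `d ≥ 3` there are a Laurent polynomial `Q` in `d` variables with full-dimensional
Newton polytope, a direction `r`, a sequence of smooth points of `V_Q` critical in the direction
`r`, and a face `Γ` of the Newton polytope such that the points converge in the toric variety of the
polytope to a point of `O_Γ`, while `r` is not parallel to `Γ`. -/
theorem result (d : ℕ) (hd : 3 ≤ d) :
    ∃ (Q : Laurent d) (Γ : Set (Fin d → ℝ)) (z : ℕ → Fin d → ℂ) (r : ℙ ℂ (Fin d → ℂ)),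
      vectorSpan ℝ (newton Q) = ⊤ ∧ IsExposed ℝ (newton Q) Γ ∧ Γ.Nonempty ∧
      (∀ j, IsSmoothCritical Q (z j) r) ∧ ConvergesToOrbit (newton Q) Γ z ∧ ¬ Parallel r Γ := by
  obtain ⟨n, rfl⟩ : ∃ n, d = n + 3 := ⟨d - 3, by omega⟩
  exact ⟨poly n, edge n, fun j => pt n (tj j), _, vectorSpan_newton n, isExposed_edge n,
    ⟨0, zero_mem_edge n⟩, isSmoothCritical n, convergesToOrbit n, not_parallel n⟩

end Pool.Agent.Results.MP_759130_ag.LimitNotParallel
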